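import Pool.Agent.helper36.NF.Spec

/-! Row nf:EXP (MP_37e5fa_nt, project NoFormula): functions of size at most `F m` for infinitely many `m`. -/

set_option autoImplicit false

open Polynomial Filter

namespace Pool.Agent.NoFormula

/-- `2 ^ (m - J)` beats polynomials -/
theorem EXP_beat (hDOM : DOM_stmt) (Q : ℤ[X]) (J : ℕ) :
    ∀ᶠ m : ℕ in atTop, 2 * |Q.eval (m : ℤ)| ≤ 2 ^ (m - J) := by
  rcases eq_or_ne Q 0 with rfl | hQ
  · refine Eventually.of_forall fun m => ?_
    simp
  · have hNF : NF 0 [((1 : ℤ[X]), fun m : ℕ => (m : ℤ) - J), (Q, fun _ => 0)] := by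
      refine ⟨?_, ?_⟩
      · intro x hx
        rcases List.mem_cons.mp hx with rfl | hx
        · refine ⟨one_ne_zero, ⟨X - C (J : ℤ), Eventually.of_forall fun m => by simp⟩, ?_⟩
          filter_upwards [eventually_ge_atTop J] with m hm
          have : (J : ℤ) ≤ m := by exact_mod_cast hm
          linarith
        · rw [List.mem_singleton] at hx
          subst hx
          refine ⟨hQ, ⟨0, Eventually.of_forall fun m => by simp⟩, Eventually.of_forall fun m => le_refl _⟩
      · rw [List.pairwise_cons]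
        refine ⟨?_, List.pairwise_singleton _ _⟩
        intro y hy
        rw [List.mem_singleton] at hy
        subst hy
        refine ⟨J, Eventually.of_forall fun m => ?_⟩
        simp
    have h := hDOM 0 _ _ hNF
    filter_upwards [h] with m hm
    have h1 : sm [((1 : ℤ[X]), fun m : ℕ => (m : ℤ) - J), (Q, fun _ => 0)] m -
        tm ((1 : ℤ[X]), fun m : ℕ => (m : ℤ) - J) m = Q.eval (m : ℤ) := by
      simp [sm, tm]
    rw [h1] at hm
    have h2 : ((m : ℤ) - (J : ℤ)).toNat = m - J := by omega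
    simpa [h2] using hm

/-- a nonzero polynomial is eventually nonzero -/
theorem EXP_ne (p : ℤ[X]) (hp : p ≠ 0) : ∀ᶠ m : ℕ in atTop, p.eval (m : ℤ) ≠ 0 := by
  have h1 : {z : ℤ | p.IsRoot z}.Finite := finite_setOfPred_isRoot hp
  have h2 : {m : ℕ | p.IsRoot (m : ℤ)}.Finite :=
    h1.preimage (f := fun m : ℕ => (m : ℤ)) (fun a _ b _ h => Int.ofNat.inj h)
  rw [← Nat.cofinite_eq_atTop]
  have h3 := h2.compl_mem_cofinite
  filter_upwards [h3] with m hm h0
  exact hm h0

/-- change of the base point -/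
theorem EXP_shift (c : ℕ) (J J1 m : ℕ) (h1 : J1 ≤ J) (h2 : J ≤ m) :
    ((c * 2 ^ (J - J1) : ℕ) : ℤ) * 2 ^ (m - J) = (c : ℤ) * 2 ^ (m - J1) := by
  push_cast
  rw [mul_assoc, ← pow_add]
  congr 2
  omega

/-- collecting the terms of a list -/
theorem EXP_list (N : List (ℤ[X] × (ℕ → ℤ)))
    (hN : ∀ y ∈ N, (∀ᶠ m : ℕ in atTop, 0 ≤ y.2 m) ∧
      ∃ (J c : ℕ) (Q : ℤ[X]), ∀ᶠ m : ℕ in atTop, y.2 m = (c : ℤ) * 2 ^ (m - J) + Q.eval (m : ℤ)) :
    ∃ (J : ℕ) (L : List (ℤ[X] × ℕ × ℤ[X])),
      (∀ x ∈ L, ∀ᶠ m : ℕ in atTop, 0 ≤ (x.2.1 : ℤ) * 2 ^ (m - J) + x.2.2.eval (m : ℤ)) ∧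
      ∀ᶠ m : ℕ in atTop, sm N m = (L.map (fun x => x.1.eval (m : ℤ) *
        2 ^ ((x.2.1 : ℤ) * 2 ^ (m - J) + x.2.2.eval (m : ℤ)).toNat)).sum := by
  induction N with
  | nil => exact ⟨0, [], by simp, Eventually.of_forall fun m => by simp [sm]⟩
  | cons y N ih =>
    obtain ⟨J1, L1, hL1, hs1⟩ := ih (fun z hz => hN z (List.mem_cons_of_mem _ hz))
    obtain ⟨hy0, J2, c, Q, hy⟩ := hN y List.mem_cons_self
    refine ⟨max J1 J2, (y.1, c * 2 ^ (max J1 J2 - J2), Q) ::
      L1.map (fun x => (x.1, x.2.1 * 2 ^ (max J1 J2 - J1), x.2.2)), ?_, ?_⟩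
    · intro x hx
      rcases List.mem_cons.mp hx with rfl | hx
      · filter_upwards [hy0, hy, eventually_ge_atTop (max J1 J2)] with m h1 h2 h3
        rw [EXP_shift c _ _ _ (le_max_right _ _) h3, ← h2]
        exact h1
      · rw [List.mem_map] at hx
        obtain ⟨z, hz, rfl⟩ := hx
        filter_upwards [hL1 z hz, eventually_ge_atTop (max J1 J2)] with m h1 h3
        rw [EXP_shift z.2.1 _ _ _ (le_max_left _ _) h3]
        exact h1
    · filter_upwards [hs1, hy, eventually_ge_atTop (max J1 J2)] with m h1 h2 h3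
      have e1 : sm (y :: N) m = tm y m + sm N m := by simp [sm]
      rw [e1, h1, List.map_cons, List.sum_cons, List.map_map]
      congr 1
      · unfold tm
        simp only
        rw [EXP_shift c _ _ _ (le_max_right _ _) h3, ← h2]
      · congr 1
        apply List.map_congr_left
        intro z _
        simp only [Function.comp]
        rw [EXP_shift z.2.1 _ _ _ (le_max_left _ _) h3]

/-- the coefficient is nonnegative -/
theorem EXP_nonneg (hDOM : DOM_stmt) (g : ℕ → ℤ) (J : ℕ) (c : ℤ) (Q : ℤ[X])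
    (hg : ∀ᶠ m : ℕ in atTop, 0 ≤ g m) (h : ∀ᶠ m : ℕ in atTop, g m = c * 2 ^ (m - J) + Q.eval (m : ℤ)) :
    0 ≤ c := by
  by_contra hc
  push Not at hc
  obtain ⟨m, h1, h2, h3⟩ := (hg.and (h.and (EXP_beat hDOM Q J))).exists
  rw [h2] at h1
  have h4 : (0 : ℤ) < 2 ^ (m - J) := by positivity
  have h5 : c * 2 ^ (m - J) ≤ -1 * 2 ^ (m - J) := mul_le_mul_of_nonneg_right (by omega) h4.le
  have h6 := le_abs_self (Q.eval (m : ℤ))
  have h7 := abs_nonneg (Q.eval (m : ℤ))
  linarith

theorem EXP (hLVA : LVA_stmt) (hNRM : NRM_stmt) (hDOM : DOM_stmt) (hDCH : DCH_stmt) (hSML : SML_stmt) :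
    EXP_stmt := by
  have _h := hLVA
  intro k f hf hfr
  cases k with
  | zero =>
    obtain ⟨p, hp⟩ := hf
    refine ⟨0, [(p, 0, 0)], ?_, ?_⟩
    · intro x hx
      rw [List.mem_singleton] at hx
      subst hx
      exact Eventually.of_forall fun m => by simp
    · filter_upwards [hp] with m hm
      rw [hm]
      simp
  | succ k =>
    obtain ⟨L, hNF, hfL⟩ := hNRM k (fun g hg => hDCH k g hg) f hf
    cases L with
    | nil =>
      refine ⟨0, [], by simp, ?_⟩
      filter_upwards [hfL] with m hm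
      rw [hm]
      simp [sm]
    | cons x L =>
      have hx1 : x.1 ≠ 0 := (hNF.1 x List.mem_cons_self).1
      have hdom := hDOM k x L hNF
      -- the leading exponent is small infinitely often
      have hsmall : ∃ᶠ m : ℕ in atTop, x.2 m ≤ 3 * 2 ^ m := by
        refine (hfr.and_eventually ((hfL.and hdom).and (EXP_ne x.1 hx1))).mono ?_
        rintro m ⟨h1, ⟨h2, h3⟩, h4⟩
        rw [h2] at h1
        have h5 : (1 : ℤ) ≤ |x.1.eval (m : ℤ)| := Int.one_le_abs h4
        have h6 : (2 : ℤ) ^ (x.2 m).toNat ≤ |tm x m| := by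
          unfold tm
          rw [abs_mul, abs_of_nonneg (by positivity : (0 : ℤ) ≤ 2 ^ (x.2 m).toNat)]
          exact le_mul_of_one_le_left (by positivity) h5
        have h7 : |tm x m| ≤ |sm (x :: L) m| + |sm (x :: L) m - tm x m| := by
          have := abs_sub (sm (x :: L) m) (sm (x :: L) m - tm x m)
          simpa using this
        have h8 : (2 : ℤ) ^ (x.2 m).toNat ≤ 2 ^ (2 ^ m + 2) := by
          have e1 : (2 : ℤ) ^ (2 ^ m + 2) = 4 * 2 ^ (2 ^ m) := by rw [pow_add]; ring
          have e2 : (2 : ℤ) ≤ 2 ^ (2 ^ m) := by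
            calc (2 : ℤ) = 2 ^ 1 := (pow_one 2).symm
              _ ≤ 2 ^ (2 ^ m) := pow_le_pow_right₀ (by norm_num) Nat.one_le_two_pow
          rw [e1]
          linarith
        have h9 : (x.2 m).toNat ≤ 2 ^ m + 2 := (pow_le_pow_iff_right₀ (by norm_num : (1 : ℤ) < 2)).mp h8
        have h10 : x.2 m ≤ ((2 ^ m + 2 : ℕ) : ℤ) := by omega
        push_cast at h10
        have h11 : (1 : ℤ) ≤ 2 ^ m := one_le_pow₀ (by norm_num)
        linarith
      have hle : ∀ y ∈ x :: L, ∀ᶠ m : ℕ in atTop, y.2 m ≤ x.2 m := by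
        intro y hy
        rcases List.mem_cons.mp hy with rfl | hy
        · exact Eventually.of_forall fun m => le_refl _
        · obtain ⟨C, hC⟩ := (List.pairwise_cons.mp hNF.2).1 y hy
          filter_upwards [hC, eventually_ge_atTop C.toNat] with m h1 h2
          have : C ≤ m := by omega
          linarith
      obtain ⟨J, M, hM, hs⟩ := EXP_list (x :: L) (by
        intro y hy
        obtain ⟨-, hy2, hy3⟩ := hNF.1 y hy
        refine ⟨hy3, ?_⟩
        obtain ⟨J, c, Q, hQ⟩ := hSML k y.2 3 hy2 (by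
          refine (hsmall.and_eventually ((hle y hy).and hy3)).mono ?_
          rintro m ⟨h1, h2, h3⟩
          rw [abs_of_nonneg h3]
          push_cast
          linarith)
        have hc := EXP_nonneg hDOM y.2 J c Q hy3 hQ
        refine ⟨J, c.toNat, Q, ?_⟩
        filter_upwards [hQ] with m hm
        rw [hm, Int.toNat_of_nonneg hc])
      refine ⟨J, M, hM, ?_⟩
      filter_upwards [hfL, hs] with m h1 h2
      rw [h1, h2]

end Pool.Agent.NoFormula
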